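import Pool.Agent.MWBN.Stmts

/-!
# Block MWBN (MP_23468a_al), row SPN: a change of a support gives `F`
-/

set_option autoImplicit false

namespace Pool.Agent.MWBN.H10

open Pool.Agent.MVO Pool.Agent.MWL

theorem gg_F {n : ℕ} {R : FC} (hGF : Has n R Bit.G → Has n R Bit.F) {l : ℕ} (h : GG n R l) :
    Has n R Bit.F := by
  unfold GG at h
  split_ifs at h with hl
  · exact hGF h
  · exact h.2

theorem spn (hkey : MWL.KeyStmt) (harr : MWL.ArrStmt) (hta1 : MWL.Ta1Stmt) (hta2 : MWL.Ta2Stmt) :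
    SpnStmt := by
  intro n R hR hnd k a a' i hi hdeg hRR ha ha'
  obtain ⟨hEF, hGF, -, -, -, -⟩ := harr n R hR
  have hab : Ab n R k a i := by
    by_contra hn
    have := hkey n R hR hnd k a a' hRR i hi hn
    exact ha' (this ▸ ha)
  obtain ⟨h1, h2, h3, -⟩ := hta1 n R hR k a i hi
  by_cases hp : ∃ p < i, 2 ≤ a p
  · by_cases hq : ∃ q, i < q ∧ q ≤ k ∧ a q ≠ 0
    · exact (h1 ha hp hq).1 hab
    · have hq' : ∀ q, i < q → q ≤ k → a q = 0 := by
        intro q hiq hqk
        by_contra hne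
        exact hq ⟨q, hiq, hqk, hne⟩
      exact hEF ((h2 ha hp hq').1 hab)
  · have hp' : ∀ p ≤ i, a p ≤ 1 := by
      intro p hpi
      rcases Nat.lt_or_ge p i with h | h
      · by_contra hne
        exact hp ⟨p, h, by omega⟩
      · have : p = i := le_antisymm hpi h
        rw [this, ha]
        exact Nat.zero_le 1
    by_cases hq : ∃ q, i < q ∧ q ≤ k ∧ 2 ≤ a q
    · exact gg_F hGF ((h3 ha hp' hq).1 hab)
    · have hall : ∀ p ≤ k, a p ≤ 1 := by
        intro p hpk
        rcases Nat.lt_or_ge i p with h | h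
        · by_contra hne
          exact hq ⟨p, h, hpk, by omega⟩
        · exact hp' p h
      obtain ⟨-, h5, h6⟩ := hta2 n R hR k a i hi hall hdeg
      by_cases hq2 : ∃ q, i < q ∧ q ≤ k ∧ a q ≠ 0
      · exact gg_F hGF ((h5 ha hq2).1 hab).2
      · have hq' : ∀ q, i < q → q ≤ k → a q = 0 := by
          intro q hiq hqk
          by_contra hne
          exact hq2 ⟨q, hiq, hqk, hne⟩
        exact hEF ((h6 ha hq').1 hab).2

end Pool.Agent.MWBN.H10
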